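import Pool.Agent.R466.Div

/-!
For all odd primes `p < q` and every `b ≥ 3`, `B(p q^b) ≥ 2 p > p`, where `B n` is the maximal
height of a divisor of `X ^ n - 1`.
-/

namespace Pool.Agent.Results.MP_7a0dfe_nt.TwicePLeB

open Polynomial Finset Pool.Agent.R466

theorem coeff_geom (m j : ℕ) : (∑ i ∈ range m, (X : ℤ[X]) ^ i).coeff j =
    if j < m then 1 else 0 := by
  rw [finsetSum_coeff]
  simp only [coeff_X_pow]
  rw [Finset.sum_ite_eq (range m) j]
  simp only [Finset.mem_range]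

theorem G_mul {p q : ℕ} [hp : Fact p.Prime] [hq : Fact q.Prime] (hpq : p < q) :
    (cyclotomic (q ^ 2) ℤ * cyclotomic (p * q) ℤ) *
      ((X ^ p - 1) * ((X ^ q - 1) * (X ^ q - 1))) =
    (X ^ (p * q) - 1) * (X - 1) * (X ^ (q ^ 2) - 1) := by
  have h1 := cyclotomic_pq_mul hpq
  have h2 : cyclotomic (q ^ 2) ℤ * (X ^ q - 1) = X ^ (q ^ 2) - 1 := by
    have e : cyclotomic q ℤ * (X - 1) = X ^ q - 1 := by
      rw [cyclotomic_prime]; exact geom_sum_mul _ _
    have := congrArg (Polynomial.expand ℤ q) e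
    rw [map_mul, map_sub, map_sub, map_pow, expand_X, map_one, ← pow_mul,
      cyclotomic_expand_eq_cyclotomic hq.out (dvd_refl q), ← pow_two] at this
    exact this
  calc _ = (cyclotomic (p * q) ℤ * ((X ^ p - 1) * (X ^ q - 1))) *
      (cyclotomic (q ^ 2) ℤ * (X ^ q - 1)) := by ring
    _ = _ := by rw [h1, h2]

theorem low_coeff {p q : ℕ} [hp : Fact p.Prime] [hq : Fact q.Prime] (hpq : p < q) (n : ℕ)
    (hn : n < q + 2) :
    (cyclotomic (q ^ 2) ℤ * cyclotomic (p * q) ℤ).coeff n =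
      ((1 - X) * (1 + 2 * X ^ q) *
        Polynomial.expand ℤ p (∑ i ∈ range (q + 2), (X : ℤ[X]) ^ i)).coeff n := by
  have hp2 := hp.out.two_le
  have hq2 := hq.out.two_le
  set G := cyclotomic (q ^ 2) ℤ * cyclotomic (p * q) ℤ with hG
  set S := Polynomial.expand ℤ p (∑ i ∈ range (q + 2), (X : ℤ[X]) ^ i) with hS
  set D : ℤ[X] := (X ^ p - 1) * ((X ^ q - 1) * (X ^ q - 1)) with hD
  have hSp : S * (X ^ p - 1) = X ^ (p * (q + 2)) - 1 := by
    have := congrArg (Polynomial.expand ℤ p) (geom_sum_mul (X : ℤ[X]) (q + 2))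
    rw [map_mul, map_sub, map_sub, map_pow, expand_X, map_one, ← pow_mul] at this
    exact this
  have e1 : p * (q + 2) = (q + 2) + (p - 1) * (q + 2) := by
    obtain ⟨p', rfl⟩ : ∃ p', p = p' + 1 := ⟨p - 1, by omega⟩
    rw [Nat.add_sub_cancel]; ring
  have e2 : ∃ a, p * q = (q + 2) + a := Nat.exists_eq_add_of_le (by nlinarith)
  have e3 : ∃ a, q ^ 2 = (q + 2) + a := Nat.exists_eq_add_of_le (by nlinarith)
  have e4 : ∃ a, q * 2 = (q + 2) + a := Nat.exists_eq_add_of_le (by omega)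
  obtain ⟨a2, ha2⟩ := e2
  obtain ⟨a3, ha3⟩ := e3
  obtain ⟨a4, ha4⟩ := e4
  have hdvd : (X : ℤ[X]) ^ (q + 2) ∣ (G - (1 - X) * (1 + 2 * X ^ q) * S) * D := by
    have h1 : G * D = (X ^ (p * q) - 1) * (X - 1) * (X ^ (q ^ 2) - 1) := G_mul hpq
    have h2 : (1 - X) * (1 + 2 * X ^ q) * S * D =
        (1 - X) * (X ^ (p * (q + 2)) - 1) *
          (1 - 3 * X ^ (q * 2) + 2 * X ^ q * X ^ (q * 2)) := by
      rw [← hSp, hD, pow_mul]
      ring
    rw [sub_mul, h1, h2, e1, ha2, ha3, ha4]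
    simp only [pow_add (X : ℤ[X]) (q + 2)]
    set U : ℤ[X] := X ^ (q + 2)
    refine ⟨(X ^ a2 * (X - 1) * (U * X ^ a3 - 1) - (X - 1) * X ^ a3) -
      ((1 - X) * X ^ ((p - 1) * (q + 2)) * (1 - 3 * (U * X ^ a4) + 2 * X ^ q * (U * X ^ a4)) -
        (1 - X) * (- 3 * (X ^ a4) + 2 * X ^ q * (X ^ a4))), ?_⟩
    ring
  have hcop : IsCoprime ((X : ℤ[X]) ^ (q + 2)) D := by
    apply IsCoprime.pow_left
    have h0 : D.coeff 0 = -1 := by
      rw [hD, mul_coeff_zero, mul_coeff_zero]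
      simp [coeff_X_pow, hp.out.ne_zero.symm, hq.out.ne_zero.symm]
    obtain ⟨R, hR⟩ := X_dvd_sub_C (p := D)
    rw [h0] at hR
    refine ⟨R, -1, ?_⟩
    have : D = X * R - 1 := by
      rw [← hR]; simp
    rw [this]; ring
  have := hcop.dvd_of_dvd_mul_right hdvd
  have h3 := X_pow_dvd_iff.mp this n hn
  rw [coeff_sub] at h3
  linarith

theorem two_le_height {p q : ℕ} [hp : Fact p.Prime] [hq : Fact q.Prime] (hp3 : p ≠ 2)
    (hpq : p < q) : 2 ≤ height (cyclotomic (q ^ 2) ℤ * cyclotomic (p * q) ℤ) := by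
  have hp2 := hp.out.two_le
  have hq2 := hq.out.two_le
  have hodd : 3 ≤ p := by omega
  have hpq' : ¬ p ∣ q := fun h => by
    have := (Nat.prime_dvd_prime_iff_eq hp.out hq.out).mp h
    omega
  set S := Polynomial.expand ℤ p (∑ i ∈ range (q + 2), (X : ℤ[X]) ^ i) with hS
  have hSc : ∀ k, k < q + 2 → S.coeff k = if p ∣ k then 1 else 0 := by
    intro k hk
    rw [hS, coeff_expand hp.out.pos]
    split_ifs with h
    · rw [coeff_geom, if_pos]
      exact lt_of_le_of_lt (Nat.div_le_self k p) hk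
    · rfl
  have hexp : (1 - X) * (1 + 2 * X ^ q) * S =
      S - X * S + 2 * (X ^ q * S) - 2 * (X ^ (q + 1) * S) := by ring
  have h2c : ∀ (f : ℤ[X]) (n : ℕ), (2 * f).coeff n = 2 * f.coeff n := by
    intro f n
    rw [show (2 : ℤ[X]) = C 2 from rfl, coeff_C_mul]
  by_cases hc : p ∣ q - 1
  · have h1 := low_coeff hpq (q + 1) (by omega)
    rw [hexp, coeff_sub, coeff_add, coeff_sub, h2c, h2c, coeff_X_mul, coeff_X_pow_mul',
      coeff_X_pow_mul', if_pos (by omega), if_pos le_rfl, hSc q (by omega),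
      hSc (q + 1) (by omega), Nat.sub_self, Nat.add_sub_cancel_left, hSc 1 (by omega),
      hSc 0 (by omega), if_neg hpq'] at h1
    have hn1 : ¬ p ∣ q + 1 := by
      intro h
      have : p ∣ (q + 1) - (q - 1) := Nat.dvd_sub h hc
      have h3 : (q + 1) - (q - 1) = 2 := by omega
      rw [h3] at this
      have := Nat.le_of_dvd two_pos this
      omega
    have hn2 : ¬ p ∣ 1 := by
      intro h
      have := Nat.le_of_dvd one_pos h
      omega
    rw [if_neg hn1, if_neg hn2, if_pos (dvd_zero p)] at h1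
    have h2 := natAbs_coeff_le_height (cyclotomic (q ^ 2) ℤ * cyclotomic (p * q) ℤ) (q + 1)
    rw [h1] at h2
    norm_num at h2
    exact h2
  · have h1 := low_coeff hpq q (by omega)
    have hq1 : ∃ q', q = q' + 1 := ⟨q - 1, by omega⟩
    obtain ⟨q', hq'⟩ := hq1
    have hcX : (X * S).coeff q = S.coeff (q - 1) := by
      rw [hq', coeff_X_mul, Nat.add_sub_cancel]
    rw [hexp, coeff_sub, coeff_add, coeff_sub, h2c, h2c, hcX, coeff_X_pow_mul',
      coeff_X_pow_mul', if_pos le_rfl, if_neg (by omega), hSc q (by omega),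
      hSc (q - 1) (by omega), Nat.sub_self, hSc 0 (by omega), if_neg hpq', if_neg hc,
      if_pos (dvd_zero p)] at h1
    have h2 := natAbs_coeff_le_height (cyclotomic (q ^ 2) ℤ * cyclotomic (p * q) ℤ) q
    rw [h1] at h2
    norm_num at h2
    exact h2

/-- For odd primes `p < q` and every `b ≥ 3`, `B(p q^b) ≥ 2p`; in particular `B(p q^b) > p`. -/
theorem result (p q : ℕ) (hp : p.Prime) (hq : q.Prime) (hp2 : p ≠ 2) (hpq : p < q)
    (b : ℕ) (hb : 3 ≤ b) : 2 * p ≤ B (p * q ^ b) := by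
  have : Fact p.Prime := ⟨hp⟩
  have : Fact q.Prime := ⟨hq⟩
  have hp2' := hp.two_le
  have hq2' := hq.two_le
  have hn : 0 < p * q ^ b := by positivity
  have h1 := height_pq_mul_expand hpq (cyclotomic (q ^ 2) ℤ * cyclotomic (p * q) ℤ)
  have h2 := two_le_height hp2 hpq
  have hq12 : q < q ^ 3 := by
    calc q = q ^ 1 := (pow_one q).symm
      _ < q ^ 3 := Nat.pow_lt_pow_right hq.one_lt (by omega)
  have hq2' : q < q ^ 2 := by
    calc q = q ^ 1 := (pow_one q).symm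
      _ < q ^ 2 := Nat.pow_lt_pow_right hq.one_lt (by omega)
  have hdvd : (cyclotomic p ℤ * (cyclotomic q ℤ * Polynomial.expand ℤ q
      (cyclotomic (q ^ 2) ℤ * cyclotomic (p * q) ℤ))) ∣ X ^ (p * q ^ b) - 1 := by
    have e1 : Polynomial.expand ℤ q (cyclotomic (q ^ 2) ℤ * cyclotomic (p * q) ℤ) =
        cyclotomic (q ^ 3) ℤ * cyclotomic (p * q ^ 2) ℤ := by
      rw [map_mul, cyclotomic_expand_eq_cyclotomic hq (dvd_pow_self q two_ne_zero),
        cyclotomic_expand_eq_cyclotomic hq (dvd_mul_left q p), ← pow_succ, mul_assoc,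
        ← pow_two]
    rw [e1]
    have hne1 : p ≠ q := hpq.ne
    have hne2 : p ≠ q ^ 3 := by omega
    have hne3 : p ≠ p * q ^ 2 := by nlinarith
    have hne4 : q ≠ q ^ 3 := hq12.ne
    have hne5 : q ≠ p * q ^ 2 := by nlinarith
    have hne6 : q ^ 3 ≠ p * q ^ 2 := by
      intro h
      have h' : q * q ^ 2 = p * q ^ 2 := by rw [← h]; ring
      exact hne1 (Nat.eq_of_mul_eq_mul_right (by positivity) h').symm
    have hprod : cyclotomic p ℤ * (cyclotomic q ℤ * (cyclotomic (q ^ 3) ℤ *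
        cyclotomic (p * q ^ 2) ℤ)) =
        ∏ d ∈ ({p, q, q ^ 3, p * q ^ 2} : Finset ℕ), cyclotomic d ℤ := by
      rw [Finset.prod_insert (by simp [hne1, hne2]; omega),
        Finset.prod_insert (by simp [hne4]; omega), Finset.prod_pair hne6]
    rw [hprod]
    apply prod_cyclotomic_dvd hn
    intro d hd
    rw [Nat.mem_divisors]
    refine ⟨?_, hn.ne'⟩
    simp only [Finset.mem_insert, Finset.mem_singleton] at hd
    rcases hd with rfl | rfl | rfl | rfl
    · exact dvd_mul_right _ _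
    · exact Dvd.dvd.mul_left (dvd_pow_self _ (by omega)) _
    · exact Dvd.dvd.mul_left (pow_dvd_pow _ hb) _
    · exact Nat.mul_dvd_mul_left _ (pow_dvd_pow _ (by omega))
  have h3 := le_B hn hdvd
  rw [h1] at h3
  calc 2 * p = p * 2 := Nat.mul_comm _ _
    _ ≤ p * height (cyclotomic (q ^ 2) ℤ * cyclotomic (p * q) ℤ) := Nat.mul_le_mul_left p h2
    _ ≤ _ := h3

end Pool.Agent.Results.MP_7a0dfe_nt.TwicePLeB
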